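import Pool.Agent.Y645.UG.Stm

/-!
# The encoding by hyperplanes
-/

namespace Pool.Agent.Y645.UG

open MvPolynomial Module Pool.Agent.Y645.UL

/-- Finiteness for the products of at most `c` hyperplanes, in terms of ideals and points. -/
def HHg (k : Type) [Field k] (c : ℕ) : Prop :=
  ∀ (I N : Type) [Fintype I] [DecidableEq I] [Fintype N] (f : N → I), Function.Surjective f →
    Fintype.card I ≤ c → ∃ 𝒜 : Set (Ideal (MvPolynomial N k)), 𝒜.Finite ∧
    (∀ p ∈ 𝒜, ∃ (F : Type) (_ : Field F) (_ : Algebra k F) (a : N → Fˣ), OnH f a ∧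
      mrk a < Fintype.card I + tdu k a ∧ ∀ g, g ∈ p ↔ aeval (fun j => (a j : F)) g = 0) ∧
    ∀ (F : Type) [Field F] [Algebra k F] (a : N → Fˣ), OnH f a →
      mrk a < Fintype.card I + tdu k a → ∃ p ∈ 𝒜, ∀ g ∈ p, aeval (fun j => (a j : F)) g = 0

section base

variable {L ι : Type} [Field L] [Fintype ι]

/-- the units `-1` and `w` -/
def zz (w : ι → Lˣ) : Unit ⊕ ι → Lˣ := Sum.elim (fun _ => -1) w

/-- the exponents of a signed monomial -/
def exm (m : Bool × (ι → ℕ)) : Unit ⊕ ι → ℤ :=
  Sum.elim (fun _ => if m.1 then 0 else 1) (fun t => (m.2 t : ℤ))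

theorem mval_eq (w : ι → Lˣ) (m : Bool × (ι → ℕ)) :
    ((mon (zz w) (exm m) : Lˣ) : L) = mval (fun j => (w j : L)) m := by
  rw [mon, Fintype.prod_sum_type, mval]
  simp only [Finset.univ_unique, Finset.prod_singleton, zz, exm, Sum.elim_inl, Sum.elim_inr,
    zpow_natCast, Units.val_mul, Units.coe_prod, Units.val_pow_eq_pow_val]
  rcases m with ⟨b, e⟩
  cases b <;> simp

theorem perp_unit [CharZero L] (w : ι → Lˣ) {ω : Unit ⊕ ι → L} (hω : ω ∈ perp L (Lam (zz w))) :
    ω (Sum.inl ()) = 0 := by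
  classical
  have h1 : (Pi.single (Sum.inl ()) 2 : Unit ⊕ ι → ℤ) ∈ Lam (zz w) := by
    rw [mem_Lam, Fintype.prod_eq_single (Sum.inl ())]
    · rw [Pi.single_eq_same]
      simp [zz]
    · intro n hn
      rw [Pi.single_eq_of_ne hn, zpow_zero]
  have h2 := hω _ h1
  rw [Fintype.sum_eq_single (Sum.inl ())] at h2
  · rw [Pi.single_eq_same] at h2
    have h3 : ((2 : ℤ) : L) ≠ 0 := by
      norm_num
    exact (mul_eq_zero.1 h2).resolve_left h3
  · intro n hn
    rw [Pi.single_eq_of_ne hn, Int.cast_zero, zero_mul]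

theorem mrk_le_zz (w : ι → Lˣ) : mrk w ≤ mrk (zz w) := by
  classical
  have h := mrk_mon_le (zz w) (fun i : ι => (Pi.single (Sum.inr i) 1 : Unit ⊕ ι → ℤ))
  have h1 : (fun i => mon (zz w) (Pi.single (Sum.inr i) 1 : Unit ⊕ ι → ℤ)) = w := by
    funext i
    rw [mon_single, zpow_one]
    rfl
  rwa [h1] at h

theorem zz_le (w : ι → Lˣ) : mrk (zz w) ≤ mrk w := by
  classical
  have e1 := mrk_add w
  have e2 := mrk_add (zz w)
  rw [Fintype.card_sum, Fintype.card_unit] at e2
  -- an injection of ℤ × Lam w in Lam (zz w)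
  let φ : ℤ × ↥(Lam w) →ₗ[ℤ] ↥(Lam (zz w)) :=
    { toFun := fun a => ⟨Sum.elim (fun _ => 2 * a.1) (a.2 : ι → ℤ), by
        rw [mem_Lam, Fintype.prod_sum_type]
        have h := mem_Lam.1 a.2.2
        simp only [Sum.elim_inr, Sum.elim_inl, zz, h, mul_one, Finset.univ_unique,
          Finset.prod_singleton]
        rw [zpow_mul]
        simp⟩
      map_add' := by
        intro a b
        refine Subtype.ext (funext fun n => ?_)
        rcases n with n | n
        · simp [mul_add]
        · simp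
      map_smul' := by
        intro c a
        refine Subtype.ext (funext fun n => ?_)
        rcases n with n | n
        · simp [mul_left_comm]
        · simp }
  have hφ : Function.Injective φ := by
    intro a b hab
    have h0 : ∀ n, (Sum.elim (fun _ => 2 * a.1) (a.2 : ι → ℤ) : Unit ⊕ ι → ℤ) n =
        (Sum.elim (fun _ => 2 * b.1) (b.2 : ι → ℤ) : Unit ⊕ ι → ℤ) n :=
      fun n => congrFun (congrArg Subtype.val hab) n
    refine Prod.ext ?_ (Subtype.ext (funext fun n => h0 (Sum.inr n)))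
    have h1 := h0 (Sum.inl ())
    simp only [Sum.elim_inl] at h1
    omega
  have h1 := LinearMap.finrank_le_finrank_of_injective hφ
  rw [Module.finrank_prod, Module.finrank_self] at h1
  omega

/-- the sum over one fibre -/
theorem sum_fibre {κ M : Type} [Fintype κ] [DecidableEq κ] [AddCommMonoid M] {len : κ → ℕ}
    (g : (Σ j : κ, Fin (len j)) → M) (i : κ) :
    ∑ p : (Σ j : κ, Fin (len j)), (if p.1 = i then g p else 0) = ∑ t : Fin (len i), g ⟨i, t⟩ := by
  rw [Fintype.sum_sigma, Finset.sum_eq_single i]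
  · simp
  · intro b _ hb
    simp [hb]
  · intro h
    exact absurd (Finset.mem_univ i) h

theorem ev_eq (x : ι → L) (l : Lst ι) : ∑ t : Fin l.length, mval x (l.get t) = ev x l := by
  rw [ev, ← Fin.sum_univ_fun_getElem]
  rfl

/-- the linear form of a list -/
theorem form_eq [CharZero L] (w : ι → Lˣ) (l : Lst ι) {ω : Unit ⊕ ι → L}
    (hω : ω ∈ perp L (Lam (zz w))) :
    ∑ t : Fin l.length, ((mon (zz w) (exm (l.get t)) : Lˣ) : L) *
      ∑ n, (exm (l.get t) n : L) * ω n =
    Ew (fun j => (w j : L)) (fun i => ω (Sum.inr i)) l := by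
  have h1 : ∀ m : Bool × (ι → ℕ), ((mon (zz w) (exm m) : Lˣ) : L) * ∑ n, (exm m n : L) * ω n =
      mval (fun j => (w j : L)) m * ∑ t, (m.2 t : L) * ω (Sum.inr t) := by
    intro m
    rw [mval_eq, Fintype.sum_sum_type]
    simp only [Finset.univ_unique, Finset.sum_singleton]
    have h2 : ω (Sum.inl default) = 0 := perp_unit w hω
    rw [h2, mul_zero, zero_add]
    congr 1
    refine Finset.sum_congr rfl fun t _ => ?_
    simp [exm]
  rw [Finset.sum_congr rfl fun t _ => h1 (l.get t), Ew, ← Fin.sum_univ_fun_getElem]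
  rfl

theorem Ew_solve (x : ι → L) (B : Finset ι) (j : ι) [DecidableEq ι] (l : Lst ι)
    (hs : SuppOn (insert j (B : Set ι)) l) (ω : ι → L) (hB : ∀ b ∈ B, ω b = 0)
    (hj : j ∉ B) (h0 : Ew x (Pi.single j 1) l ≠ 0) (h : Ew x ω l = 0) : ω j = 0 := by
  have h1 : Ew x ω l = Ew x (Pi.single j 1) l * ω j := by
    rw [Ew, Ew, ← List.sum_map_mul_right]
    congr 1
    refine List.map_congr_left fun m hm => ?_
    rw [Fintype.sum_eq_single j, Fintype.sum_eq_single j, Pi.single_eq_same]
    · ring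
    · intro t ht
      rw [Pi.single_eq_of_ne ht, mul_zero]
    · intro t ht
      by_cases htB : t ∈ B
      · rw [hB t htB, mul_zero]
      · have h2 := hs m hm t (by
          rw [Set.mem_insert_iff]
          push Not
          exact ⟨ht, htB⟩)
        rw [h2, Nat.cast_zero, zero_mul]
  rw [h1] at h
  exact (mul_eq_zero.1 h).resolve_left h0

end base

end Pool.Agent.Y645.UG
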