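import Pool.Agent.Y645.UG.StepC
import Pool.Agent.Y645.UL.Fin

/-!
# From subvarieties to ideals and back, graded
-/

namespace Pool.Agent.Y645.UG

open MvPolynomial Module Pool.Agent.Y645.UL

/-- the product of the hyperplanes -/
def hypP (k : Type) {I N : Type} [Field k] [Fintype N] [DecidableEq I] (f : N → I) :
    Set (N → kˣ) :=
  {x | ∀ i, ∑ n, (if f n = i then (x n : k) else 0) = 0}

theorem isClosedT_hypP (k : Type) {I N : Type} [Field k] [Fintype N] [DecidableEq I]
    (f : N → I) : IsClosedT (hypP k f) := by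
  refine ⟨Set.range (fun i : I => (∑ n, (if f n = i then X n else 0) : MvPolynomial N k)), ?_⟩
  have h : ∀ (x : N → kˣ) (i : I), eval (fun j => (x j : k))
      (∑ n, (if f n = i then X n else 0) : MvPolynomial N k) =
      ∑ n, (if f n = i then (x n : k) else 0) := by
    intro x i
    rw [map_sum]
    refine Finset.sum_congr rfl fun n _ => ?_
    split_ifs
    · rw [eval_X]
    · rw [map_zero]
  ext x
  constructor
  · rintro hx _ ⟨i, rfl⟩
    rw [h]
    exact hx i
  · intro hx i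
    have h1 := hx _ ⟨i, rfl⟩
    rw [h] at h1
    exact h1

/-- The hypothesis on the points of the products of at most `c` hyperplanes. -/
def LPg (k : Type) [Field k] (c : ℕ) : Prop :=
  ∀ (I N : Type) [Fintype I] [DecidableEq I] [Fintype N] (f : N → I), Function.Surjective f →
    Fintype.card I ≤ c → ∃ 𝒜 : Set (Set (N → kˣ)), 𝒜.Finite ∧
    (∀ A ∈ 𝒜, IsSubvar A ∧ A ⊆ hypP k f ∧ defect A < (Fintype.card I : ℤ)) ∧
    ∀ x ∈ hypP k f, Fintype.card N < Fintype.card I + finrank ℤ (rel {x}) → ∃ A ∈ 𝒜, x ∈ A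

theorem HHg_of_LPg (hREL : S_REL) (hDIM : S_DIM) (hGEN : S_GEN) (hTOR : S_TOR) (k : Type)
    [Field k] [IsAlgClosed k] [CharZero k] (c : ℕ) (h : LPg k c) : HHg k c := by
  classical
  intro I N _ _ _ f hs hI
  obtain ⟨𝒜, hfin, h1, h2⟩ := h I N f hs hI
  have hev : ∀ {L : Type} [Field L] [Algebra k L] (x : N → Lˣ) (i : I),
      aeval (fun j => (x j : L)) (∑ n, (if f n = i then X n else 0) : MvPolynomial N k) =
      ∑ n, (if f n = i then (x n : L) else 0) := by
    intro L _ _ x i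
    rw [map_sum]
    refine Finset.sum_congr rfl fun n _ => ?_
    split_ifs
    · rw [aeval_X]
    · rw [map_zero]
  refine ⟨van '' 𝒜, hfin.image _, ?_, ?_⟩
  · rintro _ ⟨A, hA, rfl⟩
    obtain ⟨hsub, hV, hdef⟩ := h1 A hA
    obtain ⟨F, hF1, hF2, a, ha⟩ := hGEN k N (van A) hsub.2 (X_notMem_van hsub.2)
    refine ⟨F, hF1, hF2, a, ?_, ?_, ha⟩
    · intro i
      have h3 : (∑ n, (if f n = i then X n else 0) : MvPolynomial N k) ∈ van A := by
        intro x hx
        exact (hev x i).trans (hV hx i)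
      have h4 := (ha _).1 h3
      rw [hev] at h4
      exact h4
    · have h3 := defect_eq hREL hDIM a A ha
      omega
  · intro F _ _ y hy hlt
    by_contra hcon
    push Not at hcon
    choose! fp hfp1 hfp2 using hcon
    have hne : aeval (fun j => (y j : F)) (∏ A ∈ hfin.toFinset, fp (van A)) ≠ 0 := by
      rw [map_prod]
      exact Finset.prod_ne_zero_iff.2 fun A hA => hfp2 _ ⟨A, hfin.mem_toFinset.1 hA, rfl⟩
    obtain ⟨x, hx1, hx2, hx3⟩ := hTOR k F N y _ hne
    have hx : x ∈ hypP k f := by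
      intro i
      have h4 := hx1 (∑ n, (if f n = i then X n else 0)) (by rw [hev]; exact hy i)
      rw [hev] at h4
      exact h4
    have hr : Fintype.card N < Fintype.card I + finrank ℤ (rel {x}) := by
      rw [rel_singleton]
      have h5 := mrk_add x
      omega
    obtain ⟨A, hA, hxA⟩ := h2 x hx hr
    refine hx2 ?_
    rw [map_prod]
    exact Finset.prod_eq_zero (hfin.mem_toFinset.2 hA) (hfp1 _ ⟨A, hA, rfl⟩ x hxA)

theorem FinDef_of_AAg (hREL : S_REL) (hDIM : S_DIM) (hGEN : S_GEN) (hNULL : S_NULL) (k : Type)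
    [Field k] [IsAlgClosed k] (c : ℕ) (h : AAg k c) (ι : Type) [Fintype ι] (V : Set (ι → kˣ))
    (δ : ℕ) (hδ : δ < c) (hV : IsClosedT V) : FinDef V (δ : ℤ) := by
  obtain ⟨J, hJ⟩ := hV
  obtain ⟨Q, hQ, h1, h2⟩ := h ι δ (van V) hδ
  let Zq : Ideal (MvPolynomial ι k) → Set (ι → kˣ) := fun q =>
    {x | ∀ f ∈ q, eval (fun j => (x j : k)) f = 0}
  refine ⟨Zq '' Q, hQ.image _, ?_, ?_⟩
  · rintro _ ⟨q, hq, rfl⟩
    obtain ⟨hq1, L, hL1, hL2, y, hy1, hy2⟩ := h1 q hq
    have hZ : Zq q = ZZ k y := by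
      ext x
      constructor
      · intro hx f hf
        exact hx f ((hy1 f).2 hf)
      · intro hx f hf
        exact hx f ((hy1 f).1 hf)
    have hv : ∀ f : MvPolynomial ι k, f ∈ van (Zq q) ↔ aeval (fun j => (y j : L)) f = 0 := by
      intro f
      rw [hZ]
      exact hNULL k L ι y f
    refine ⟨⟨⟨q, rfl⟩, ?_⟩, ?_, ?_⟩
    · have h3 : van (Zq q) = RingHom.ker (aeval (fun j => (y j : L)) :
          MvPolynomial ι k →ₐ[k] L) := by
        ext f
        rw [RingHom.mem_ker]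
        exact hv f
      rw [h3]
      exact RingHom.ker_isPrime _
    · intro x hx
      rw [hJ]
      intro f hf
      refine hx f (hq1 ?_)
      intro x' hx'
      rw [hJ] at hx'
      exact hx' f hf
    · rw [defect_eq hREL hDIM y _ hv]
      exact hy2
  · intro A hA hAV hd
    obtain ⟨L, hL1, hL2, y, hy⟩ := hGEN k ι (van A) hA.2 (X_notMem_van hA.2)
    obtain ⟨q, hq, hqA⟩ := h2 (van A) (fun f hf x hx => hf x (hAV hx))
      ⟨L, hL1, hL2, y, hy, by rw [← defect_eq hREL hDIM y A hy]; exact hd⟩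
    exact ⟨Zq q, ⟨q, hq, rfl⟩, fun x hx f hf => hqA hf x hx⟩

theorem LPg_of_FinDef {k : Type} [Field k] (c : ℕ)
    (h : ∀ (I N : Type) [Fintype I] [DecidableEq I] [Fintype N] (f : N → I) (δ : ℕ), δ < c →
      FinDef (hypP k f) (δ : ℤ)) : LPg k c := by
  intro I N _ _ _ f _ hI
  have hcard : ∀ x : N → kˣ, finrank ℤ (rel {x}) ≤ Fintype.card N := by
    intro x
    rw [rel_singleton]
    have h5 := mrk_add x
    omega
  by_cases h0 : Fintype.card I = 0
  · refine ⟨∅, Set.finite_empty, fun A hA => absurd hA (Set.notMem_empty A), ?_⟩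
    intro x hx hr
    have := hcard x
    omega
  obtain ⟨𝒜, h1, h2, h3⟩ := h I N f (Fintype.card I - 1) (by omega)
  refine ⟨𝒜, h1, fun A hA => ?_, ?_⟩
  · obtain ⟨h4, h5, h6⟩ := h2 A hA
    exact ⟨h4, h5, by omega⟩
  · intro x hx hr
    obtain ⟨A, hA, hxA⟩ := h3 {x} (isSubvar_singleton x) (Set.singleton_subset_iff.2 hx) (by
      rw [defect]
      omega)
    exact ⟨A, hA, hxA rfl⟩

end Pool.Agent.Y645.UG
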