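import Pool.Agent.Y645.UG.Core

/-!
# The encoding by hyperplanes: the main step
-/

namespace Pool.Agent.Y645.UG

open MvPolynomial Module Pool.Agent.Y645.UL

section forms

variable {L ι : Type} [Field L] [Fintype ι]

/-- the linear form of a list on the possible logarithmic derivatives -/
noncomputable def EEg (w : ι → Lˣ) (l : Lst ι) : ↥(perp L (Lam (zz w))) →ₗ[L] L :=
  (∑ t : Fin l.length, ((mon (zz w) (exm (l.get t)) : Lˣ) : L) •
    ∑ n : Unit ⊕ ι, (exm (l.get t) n : L) • (LinearMap.proj n : (Unit ⊕ ι → L) →ₗ[L] L)) ∘ₗ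
      (perp L (Lam (zz w))).subtype

theorem EEg_apply (w : ι → Lˣ) (l : Lst ι) (ω : ↥(perp L (Lam (zz w)))) :
    EEg w l ω = ∑ t : Fin l.length, ((mon (zz w) (exm (l.get t)) : Lˣ) : L) *
      ∑ n, (exm (l.get t) n : L) * (ω : Unit ⊕ ι → L) n := by
  simp [EEg, mul_add]

end forms

theorem t_Cg (hINT : S_INT) (hLST : S_LST) (hPULL : S_PULL) (hSEL : S_SEL)
    (hSTAR : S_STARg) (hTD : S_TDg) (k : Type) [Field k] [CharZero k] [Algebra.IsAlgebraic ℚ k]
    (c : ℕ) (hH : HHg k c) : PPg k c := by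
  classical
  intro δ hδ ι _ L _ _ w hw
  have hL : CharZero L := charZero_of_injective_algebraMap (algebraMap k L).injective
  obtain ⟨B, hBc, hBi, hBa⟩ := exists_basis (k := k) (fun j => (w j : L))
  have hlist : ∀ j : {j : ι // j ∉ B}, ∃ l : Lst ι, SuppOn (insert j.1 (B : Set ι)) l ∧
      ev (fun j => (w j : L)) l = 0 ∧
      Ew (fun j => (w j : L)) (@Pi.single ι (fun _ => L) _
        (fun a b => Classical.propDecidable (a = b)) j.1 1) l ≠ 0 := by
    intro j
    obtain ⟨l, h1, h2, h3, h4, h5⟩ := hLST ι L (fun j => (w j : L)) B j.1 j.2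
      (fun t => (w t).ne_zero) (hINT k L _ _ (hBa j.1))
    exact ⟨l, h1, h2, h3⟩
  choose l hl1 hl2 hl3 using hlist
  obtain ⟨κ, hκ1, hκ2⟩ := hSEL L (↥(perp L (Lam (zz w)))) {j : ι // j ∉ B}
    (fun j => EEg w (l j))
  -- the number of the selected forms
  have hcount : mrk w ≤ κ.card + B.card := by
    let g1 : ↥(perp L (Lam (zz w))) →ₗ[L] (κ → L) := LinearMap.pi fun j => EEg w (l j.1)
    let g2 : ↥(perp L (Lam (zz w))) →ₗ[L] (B → L) := LinearMap.pi fun b : B =>
      (LinearMap.proj (Sum.inr (b : ι))) ∘ₗ (perp L (Lam (zz w))).subtype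
    have h2 : Function.Injective (g1.prod g2) := by
      rw [← LinearMap.ker_eq_bot, Submodule.eq_bot_iff]
      intro v hv
      have hv0 : (g1 v, g2 v) = 0 := LinearMap.mem_ker.1 hv
      rw [Prod.mk_eq_zero] at hv0
      have h4 := hκ1 v (fun s hs => congrFun hv0.1 ⟨s, hs⟩)
      have h5 : ∀ b ∈ B, (v : Unit ⊕ ι → L) (Sum.inr b) = 0 := fun b hb =>
        congrFun hv0.2 ⟨b, hb⟩
      refine Subtype.ext (funext fun n => ?_)
      rcases n with n | j
      · exact perp_unit w v.2
      · by_cases hj : j ∈ B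
        · exact h5 j hj
        · have h6 := h4 ⟨j, hj⟩
          rw [EEg_apply, form_eq w (l ⟨j, hj⟩) v.2] at h6
          exact @Ew_solve L ι _ _ (fun j => (w j : L)) B j
            (fun a b => Classical.propDecidable (a = b)) (l ⟨j, hj⟩) (hl1 ⟨j, hj⟩)
            (fun i => (v : Unit ⊕ ι → L) (Sum.inr i)) h5 hj (hl3 ⟨j, hj⟩) h6
    have h5 := LinearMap.finrank_le_finrank_of_injective h2
    rw [Module.finrank_prod, Module.finrank_pi, Module.finrank_pi, Fintype.card_coe,
      Fintype.card_coe] at h5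
    have e0 := finrank_perp L (Lam (zz w))
    have e1 := mrk_add (zz w)
    have e2 := mrk_le_zz w
    omega
  have hBt : B.card = tdu k w := hBc
  obtain ⟨κ', hκ'1, hκ'2⟩ := Finset.exists_subset_card_eq (s := κ) (n := δ + 1) (by omega)
  -- the selected gates
  let N := Σ j : κ', Fin (l j.1).length
  let f : N → κ' := Sigma.fst
  let u : N → Unit ⊕ ι → ℤ := fun p => exm ((l p.1.1).get p.2)
  have hcard : Fintype.card κ' = δ + 1 := by rw [Fintype.card_coe, hκ'2]
  have hsurj : Function.Surjective f := by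
    intro j
    have h1 : 0 < (l j.1).length := by
      rw [List.length_pos_iff]
      intro h2
      apply hl3 j.1
      rw [h2]
      rfl
    exact ⟨⟨j, ⟨0, h1⟩⟩, rfl⟩
  obtain ⟨𝒜, hfin, hA1, hA2⟩ := hH κ' N f hsurj (by omega)
  have hy : OnH f (fun p => mon (zz w) (u p)) := by
    intro i
    have h1 := sum_fibre (κ := κ') (fun p : N => ((mon (zz w) (u p) : Lˣ) : L)) i
    refine h1.trans ?_
    rw [← hl2 i.1, ← ev_eq]
    exact Finset.sum_congr rfl fun t _ => mval_eq w _
  have hind : ∀ d : κ' → L, (∀ ω ∈ perp L (Lam (fun p => mon (zz w) (u p))),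
      ∑ i, d i * ∑ n, (if f n = i then ((mon (zz w) (u n) : Lˣ) : L) * ω n else 0) = 0) →
      d = 0 := by
    intro d hd
    let c₀ : {j : ι // j ∉ B} → L := fun s => if h : s ∈ κ' then d ⟨s, h⟩ else 0
    have h1 : (fun s : κ => c₀ s) = 0 := by
      refine hκ2 _ fun v => ?_
      have h2 := hd _ (dot_mem_perp (zz w) u v.2)
      have h3 : ∀ i : κ', ∑ n, (if f n = i then ((mon (zz w) (u n) : Lˣ) : L) *
          (∑ m, (u n m : L) * (v : Unit ⊕ ι → L) m) else 0) = EEg w (l i.1) v := by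
        intro i
        rw [EEg_apply]
        exact sum_fibre (κ := κ') (fun p : N => ((mon (zz w) (u p) : Lˣ) : L) *
          (∑ m, (u p m : L) * (v : Unit ⊕ ι → L) m)) i
      have h4 : ∑ s : κ, c₀ s * EEg w (l s) v = ∑ i : κ', d i * EEg w (l i.1) v := by
        rw [Finset.sum_coe_sort κ (fun s => c₀ s * EEg w (l s) v),
          ← Finset.sum_subset hκ'1 (fun s _ hs => by
            simp only [c₀, dif_neg hs, zero_mul]),
          ← Finset.sum_coe_sort κ' (fun s => c₀ s * EEg w (l s) v)]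
        refine Finset.sum_congr rfl fun i _ => ?_
        simp only [c₀, dif_pos i.2]
      rw [h4]
      refine Eq.trans ?_ h2
      exact Finset.sum_congr rfl fun i _ => by rw [h3 i]
    funext i
    have h2 := congrFun h1 ⟨i.1, hκ'1 i.2⟩
    simp only [c₀, dif_pos i.2, Pi.zero_apply] at h2
    exact h2
  have hnot : ∀ p ∈ 𝒜, ∃ g ∈ p, aeval (fun n => ((mon (zz w) (u n) : Lˣ) : L)) g ≠ 0 := by
    intro p hp
    by_contra hcon
    push Not at hcon
    obtain ⟨F, _, _, a, ha1, ha2, ha3⟩ := hA1 p hp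
    have hF : CharZero F := charZero_of_injective_algebraMap (algebraMap k F).injective
    have hs : Spc k a (fun p => mon (zz w) (u p)) := fun g hg => hcon g ((ha3 g).2 hg)
    have h1 := hSTAR k L F κ' N f (fun p => mon (zz w) (u p)) a ha1 hs hind
    omega
  choose! fp hfp1 hfp2 using hnot
  let G : Unit ⊕ ι → MvPolynomial ι k := Sum.elim (fun _ => -1) X
  have hG : ∀ {L' : Type} [Field L'] [Algebra k L'] (x : ι → L'ˣ) (n : Unit ⊕ ι),
      ((zz x n : L'ˣ) : L') = aeval (fun j => (x j : L')) (G n) := by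
    intro L' _ _ x n
    rcases n with n | n
    · simp [zz, G]
    · simp [zz, G]
  choose pb hpb using fun g : MvPolynomial N k => hPULL k ι (Unit ⊕ ι) N G u g
  refine ⟨∏ p ∈ hfin.toFinset, pb (fp p), ?_, ?_⟩
  · rw [map_prod]
    refine Finset.prod_ne_zero_iff.2 fun p hp => ?_
    intro h0
    exact hfp2 p (hfin.mem_toFinset.1 hp) ((hpb (fp p) L w (zz w) (hG w)).1 h0)
  · intro L' _ _ x hs hx
    have hsy : Spc k (fun p => mon (zz w) (u p)) (fun p => mon (zz x) (u p)) := by
      intro g hg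
      exact (hpb g L' x (zz x) (hG x)).1 (hs _ ((hpb g L w (zz w) (hG w)).2 hg))
    have hyS : OnH f (fun p => mon (zz x) (u p)) := by
      intro i
      have h1 := hsy (∑ n, (if f n = i then X n else 0)) (by
        rw [map_sum]
        refine Eq.trans (Finset.sum_congr rfl fun n _ => ?_) (hy i)
        split_ifs
        · rw [aeval_X]
        · rw [map_zero])
      rw [map_sum] at h1
      refine Eq.trans (Finset.sum_congr rfl fun n _ => ?_) h1
      split_ifs
      · rw [aeval_X]
      · rw [map_zero]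
    have n1 := hTD k L' (Unit ⊕ ι) N (zz x) u
    have n2 := zz_le x
    have n3 : tdu k x ≤ tdu k (zz x) := by
      refine td_le_of_alg fun o => alg_self ⟨Sum.inr o, rfl⟩
    have n4 : mrk (fun p => mon (zz x) (u p)) < Fintype.card κ' +
        tdu k (fun p => mon (zz x) (u p)) := by omega
    obtain ⟨p, hp, hpf⟩ := hA2 L' (fun p => mon (zz x) (u p)) hyS n4
    rw [map_prod]
    refine Finset.prod_eq_zero (hfin.mem_toFinset.2 hp) ?_
    exact (hpb (fp p) L' x (zz x) (hG x)).2 (hpf _ (hfp1 p hp))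

end Pool.Agent.Y645.UG
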