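import Pool.Agent.Y645.UL.Mon

/-!
# Graded universality in tori: products of at most `c` hyperplanes (project UG)
-/

namespace Pool.Agent.Y645.UG

open MvPolynomial Module Pool.Agent.Y645.UL

/-- The point is on the product of the hyperplanes `∑ x_n = 0`, one for every `i : I`, in the
coordinates `n` with `f n = i`. -/
def OnH {L I N : Type} [Field L] [Fintype N] [DecidableEq I] (f : N → I) (y : N → Lˣ) : Prop :=
  ∀ i, ∑ n, (if f n = i then (y n : L) else 0) = 0

/-- In every variety of defect greater than `δ`, `δ < c`, the points of defect at most `δ` are not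
dense. -/
def PPg (k : Type) [Field k] (c : ℕ) : Prop :=
  ∀ (δ : ℕ), δ < c → ∀ (ι : Type) [Fintype ι] (L : Type) [Field L] [Algebra k L] (w : ι → Lˣ),
    tdu k w + δ < mrk w → ∃ g : MvPolynomial ι k, aeval (fun j => (w j : L)) g ≠ 0 ∧
      ∀ (L' : Type) [Field L'] [Algebra k L'] (x : ι → L'ˣ), Spc k w x →
        mrk x ≤ tdu k x + δ → aeval (fun j => (x j : L')) g = 0

def AAg (k : Type) [Field k] (c : ℕ) : Prop :=
  ∀ (ι : Type) [Fintype ι] (δ : ℕ) (J : Ideal (MvPolynomial ι k)), δ < c →
    ∃ Q : Set (Ideal (MvPolynomial ι k)), Q.Finite ∧ (∀ q ∈ Q, J ≤ q ∧ Pt k ι (δ : ℤ) q) ∧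
      ∀ p, J ≤ p → Pt k ι (δ : ℤ) p → ∃ q ∈ Q, q ≤ p

def S_Ag : Prop := ∀ (k : Type) [Field k] (c : ℕ), PPg k c → AAg k c

def S_Bg : Prop := ∀ (k₀ k : Type) [Field k₀] [Field k] [Algebra k₀ k] (c : ℕ),
  PPg k₀ c → PPg k c

/-- the increments of the rank decrease under specialization -/
def S_INCg : Prop := ∀ (k L L' ι κ : Type) [Field k] [Field L] [Field L'] [Algebra k L]
  [Algebra k L'] [Fintype ι] [Fintype κ] (w : ι → Lˣ) (x : ι → L'ˣ) (b : κ → kˣ), Spc k w x →
    mrk (Sum.elim x (fun i => Units.map (algebraMap k L').toMonoidHom (b i))) + mrk w ≤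
      mrk (Sum.elim w (fun i => Units.map (algebraMap k L).toMonoidHom (b i))) + mrk x

/-- the increments of the transcendence degree are at most the increments of the rank -/
def S_TDg : Prop := ∀ (k L N M : Type) [Field k] [Field L] [Algebra k L] [Fintype N] [Fintype M]
  (z : N → Lˣ) (u : M → N → ℤ),
    tdu k z + mrk (fun m => mon z (u m)) ≤ mrk z + tdu k (fun m => mon z (u m))

/-- the rank of a generic point of a family of atypical points -/
def S_STARg : Prop := ∀ (k L F I N : Type) [Field k] [CharZero k] [Field L] [Field F] [CharZero L]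
  [CharZero F] [Algebra k L] [Algebra k F] [Fintype I] [DecidableEq I] [Fintype N] (f : N → I)
  (y : N → Lˣ) (a : N → Fˣ), OnH f a → Spc k a y →
    (∀ d : I → L, (∀ ω ∈ perp L (Lam y),
      ∑ i, d i * ∑ n, (if f n = i then (y n : L) * ω n else 0) = 0) → d = 0) →
    tdu k a + Fintype.card I ≤ mrk a

end Pool.Agent.Y645.UG
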