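import Pool.Agent.Y645.UG.Stm
import Pool.Agent.Y645.UL.Stm2

/-!
# Zilber's form in codimension at most `c`: statements
-/

namespace Pool.Agent.Y645.UG

open MvPolynomial Module Pool.Agent.Y645.UL

/-- Zilber's form for the varieties of codimension at most `c`: if the points of `Y` which lie in
algebraic subgroups of dimension less than the codimension of `Y` are Zariski dense in `Y`, then a
nontrivial character is equal to 1 on `Y`. -/
def Zil (k : Type) [Field k] (c : ℕ) : Prop :=
  ∀ (ι : Type) [Fintype ι] (Y : Set (ι → kˣ)), IsSubvar Y → Fintype.card ι ≤ dimT Y + c →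
    (∀ f : MvPolynomial ι k,
      (∀ x ∈ Y, dimT Y < finrank ℤ (rel {x}) → eval (fun j => (x j : k)) f = 0) →
      ∀ x ∈ Y, eval (fun j => (x j : k)) f = 0) → rel Y ≠ ⊥

/-- a multiplicatively independent part of the coordinates of defect `δ + 1` -/
def S_SUB : Prop := ∀ (k L ι : Type) [Field k] [Field L] [Algebra k L] [Fintype ι] (w : ι → Lˣ)
  (δ : ℕ), tdu k w + δ < mrk w → ∃ S : Finset ι, Lam (fun j : S => w j) = ⊥ ∧
    S.card = tdu k (fun j : S => w j) + (δ + 1)

def S_ZIL1 : Prop := ∀ (k : Type) [Field k] [CharZero k] [IsAlgClosed k] (c : ℕ),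
  Zil k c → PPg k c

def S_ZIL2 : Prop := ∀ (k : Type) [Field k] [CharZero k] [IsAlgClosed k] (c : ℕ),
  (∀ (ι : Type) [Fintype ι] (V : Set (ι → kˣ)) (δ : ℕ), δ < c → IsClosedT V →
    FinDef V (δ : ℤ)) → Zil k c

end Pool.Agent.Y645.UG
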